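import Mathlib

set_option autoImplicit false

namespace Pool.Agent.Results.MP_f95752_co.Counter

/-- `G` is `d`-degenerate: every nonempty subgraph has a vertex of degree at most `d`. -/
def IsDeg {V : Type} (G : SimpleGraph V) (d : ℕ) : Prop :=
  ∀ H : G.Subgraph, H.verts.Nonempty → ∃ v ∈ H.verts, (H.neighborSet v).ncard ≤ d

/-- The degeneracy: least `d` such that `G` is `d`-degenerate. -/
noncomputable def degeneracy {V : Type} (G : SimpleGraph V) : ℕ := sInf {d | IsDeg G d}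

/-- Largest order of an induced `d`-degenerate subgraph. -/
noncomputable def alphaD {V : Type} (G : SimpleGraph V) (d : ℕ) : ℕ :=
  sSup {m | ∃ S : Set V, S.ncard = m ∧ IsDeg (G.induce S) d}

def edges : List (Fin 7 × Fin 7) :=
  [(0,1),(0,2),(0,3),(1,2),(1,3),(2,3),(4,1),(4,2),(4,3),(5,4),(5,0),(5,3),(6,4),(6,5),(6,0)]

def gr : SimpleGraph (Fin 7) where
  Adj a b := (a, b) ∈ edges ∨ (b, a) ∈ edges
  symm := ⟨fun _ _ h => h.symm⟩
  loopless := ⟨by decide⟩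

instance : DecidableRel gr.Adj := fun a b =>
  inferInstanceAs (Decidable ((a, b) ∈ edges ∨ (b, a) ∈ edges))

theorem fin_of_isDeg {S : Set (Fin 7)} {d : ℕ} (h : IsDeg (gr.induce S) d) (T : Finset (Fin 7))
    (hT : ∀ v ∈ T, v ∈ S) (hne : T.Nonempty) :
    ∃ v ∈ T, (T.filter (gr.Adj v)).card ≤ d := by
  obtain ⟨x, hx⟩ := hne
  obtain ⟨v, hv, hd⟩ := h ((⊤ : (gr.induce S).Subgraph).induce {y | y.1 ∈ T})
    ⟨⟨x, hT x hx⟩, hx⟩
  refine ⟨v.1, hv, le_trans (le_of_eq ?_) hd⟩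
  rw [← Set.ncard_image_of_injective _ Subtype.val_injective, ← Set.ncard_coe_finset]
  congr 1
  ext w
  simp only [Finset.coe_filter, Set.mem_setOf_eq, Set.mem_image,
    SimpleGraph.Subgraph.mem_neighborSet, SimpleGraph.Subgraph.induce_adj]
  constructor
  · rintro ⟨h1, h2⟩
    exact ⟨⟨w, hT w h1⟩, ⟨hv, h1, h2⟩, rfl⟩
  · rintro ⟨y, ⟨_, h1, h2⟩, rfl⟩
    exact ⟨h1, h2⟩

theorem deg3 : ∀ T : Finset (Fin 7), T.Nonempty → ∃ v ∈ T, (T.filter (gr.Adj v)).card ≤ 3 := by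
  decide +kernel

theorem isDeg3 : IsDeg gr 3 := by
  classical
  intro H hne
  obtain ⟨v, hv, hd⟩ := deg3 (Finset.univ.filter (· ∈ H.verts))
    (by obtain ⟨x, hx⟩ := hne; exact ⟨x, by simpa using hx⟩)
  refine ⟨v, by simpa using hv, le_trans ?_ hd⟩
  rw [← Set.ncard_coe_finset]
  refine Set.ncard_le_ncard ?_ (Set.toFinite _)
  intro w hw
  simp only [Finset.coe_filter, Finset.mem_filter, Finset.mem_univ, true_and, Set.mem_setOf_eq]
  exact ⟨H.edge_vert hw.symm, H.adj_sub hw⟩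

theorem core : ∀ S : Finset (Fin 7), 6 ≤ S.card → ∃ T : Finset (Fin 7), T ⊆ S ∧ T.Nonempty ∧
    ∀ v ∈ T, 3 ≤ (T.filter (gr.Adj v)).card := by
  decide +kernel

theorem small {S : Set (Fin 7)} (h : IsDeg (gr.induce S) 2) : S.ncard ≤ 5 := by
  classical
  by_contra hc
  obtain ⟨T, h1, h2, h3⟩ := core S.toFinset (by
    rw [Set.ncard_eq_toFinset_card'] at hc; omega)
  obtain ⟨v, hv, hd⟩ := fin_of_isDeg h T (fun v hv => by simpa using h1 hv) h2
  have := h3 v hv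
  omega

theorem not_isDeg {d : ℕ} (hd : d ≤ 2) : ¬ IsDeg gr d := by
  intro h
  obtain ⟨v, hv, h2⟩ := h ⊤ ⟨0, trivial⟩
  have h3 : ∀ v : Fin 7, 3 ≤ (Finset.univ.filter (gr.Adj v)).card := by decide
  have h4 : ((⊤ : gr.Subgraph).neighborSet v) = ↑(Finset.univ.filter (gr.Adj v)) := by
    ext w; simp
  rw [h4, Set.ncard_coe_finset] at h2
  have := h3 v
  omega

theorem result : ∃ k d : ℕ, 3 ≤ k ∧ d < k ∧ ∃ (n : ℕ) (G : SimpleGraph (Fin n)),
    degeneracy G = k ∧ (alphaD G d : ℚ) < ((d : ℚ) + 1) * n / ((k : ℚ) + 1) := by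
  refine ⟨3, 2, le_rfl, by norm_num, 7, gr, ?_, ?_⟩
  · apply le_antisymm (Nat.sInf_le isDeg3)
    by_contra hc
    have := Nat.sInf_mem (s := {d | IsDeg gr d}) ⟨3, isDeg3⟩
    exact not_isDeg (by omega) this
  · have : alphaD gr 2 ≤ 5 := by
      apply csSup_le'
      rintro m ⟨S, rfl, hS⟩
      exact small hS
    have h2 : (alphaD gr 2 : ℚ) ≤ 5 := by exact_mod_cast this
    norm_num
    linarith

end Pool.Agent.Results.MP_f95752_co.Counter
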